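import Pool.Agent.H484.AL.Stm

/-!
# Project AL (helper484), lemma FINEW: the fine words have almost full measure
-/

namespace Pool.Agent.H484.AL

open Finset

private theorem finew_len_nonneg (w : List ℕ) : 0 ≤ len w := by
  unfold len
  positivity

theorem t_FINEW (hMASS : S_MASS) (hSQ : S_SQ) (hFE : S_FE) : S_FINEW := by
  intro c0 n Q hc0 hn hQ
  have hn1 : 1 ≤ n := le_trans (Nat.one_le_pow 2 c0 hc0) hn
  have hnR : (1 : ℝ) ≤ n := by exact_mod_cast hn1
  have hn0 : (n : ℝ) ≠ 0 := by positivity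
  have hQ0 : 0 < Real.sqrt Q := Real.sqrt_pos.2 (by linarith)
  obtain ⟨hM1, hM2⟩ := hMASS (n ^ 2) n (Nat.one_le_pow 2 n hn1)
  have hS := hSQ (n ^ 2) n
  have hE := hFE c0 n (n ^ 2) n hc0 hn (Nat.le_self_pow (by norm_num) n)
  push_cast at hM1
  constructor
  · -- the words which are not fine
    have key : ∀ w ∈ words (n ^ 2) n, ¬ (((qq w).1 : ℝ) ≤ Q ∧
        (n : ℝ) * Real.log (n : ℝ) / 48 ≤ (FF c0 n w : ℝ)) →
        len w ≤ len w * Real.sqrt ((qq w).1 : ℝ) / Real.sqrt Q +
          Real.exp (Real.log (n : ℝ) / 48) * (len w * Real.exp (-(FF c0 n w : ℝ) / (n : ℝ))) := by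
      intro w _ hw
      have h0 := finew_len_nonneg w
      have hA : 0 ≤ len w * Real.sqrt ((qq w).1 : ℝ) / Real.sqrt Q := by positivity
      have hB : 0 ≤ Real.exp (Real.log (n : ℝ) / 48) *
          (len w * Real.exp (-(FF c0 n w : ℝ) / (n : ℝ))) := by positivity
      rcases not_and_or.1 hw with h | h
      · have h1 : Real.sqrt Q ≤ Real.sqrt ((qq w).1 : ℝ) := Real.sqrt_le_sqrt (not_le.1 h).le
        have h2 : len w ≤ len w * Real.sqrt ((qq w).1 : ℝ) / Real.sqrt Q := by
          rw [le_div_iff₀ hQ0]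
          exact mul_le_mul_of_nonneg_left h1 h0
        linarith
      · have h1 : (1 : ℝ) ≤ Real.exp (Real.log (n : ℝ) / 48) *
            Real.exp (-(FF c0 n w : ℝ) / (n : ℝ)) := by
          rw [← Real.exp_add]
          refine Real.one_le_exp ?_
          have h3 : Real.log (n : ℝ) / 48 + -(FF c0 n w : ℝ) / (n : ℝ) =
              ((n : ℝ) * Real.log (n : ℝ) / 48 - (FF c0 n w : ℝ)) / n := by
            field_simp
            ring
          rw [h3]
          exact div_nonneg (by linarith [not_le.1 h]) (by positivity)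
        have h2 : len w ≤ Real.exp (Real.log (n : ℝ) / 48) *
            (len w * Real.exp (-(FF c0 n w : ℝ) / (n : ℝ))) := by
          calc len w = len w * 1 := (mul_one _).symm
            _ ≤ len w * (Real.exp (Real.log (n : ℝ) / 48) *
                Real.exp (-(FF c0 n w : ℝ) / (n : ℝ))) := mul_le_mul_of_nonneg_left h1 h0
            _ = _ := by ring
        linarith
    rw [sub_sub, sub_sub, sub_le_iff_le_add]
    have hall : ∑ w ∈ words (n ^ 2) n, len w ≤
        ∑ w ∈ words (n ^ 2) n, ((if ((qq w).1 : ℝ) ≤ Q ∧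
            (n : ℝ) * Real.log (n : ℝ) / 48 ≤ (FF c0 n w : ℝ) then len w else 0) +
          (len w * Real.sqrt ((qq w).1 : ℝ) / Real.sqrt Q +
          Real.exp (Real.log (n : ℝ) / 48) * (len w * Real.exp (-(FF c0 n w : ℝ) / (n : ℝ))))) := by
      refine Finset.sum_le_sum fun w hw => ?_
      have h0 := finew_len_nonneg w
      have hA : 0 ≤ len w * Real.sqrt ((qq w).1 : ℝ) / Real.sqrt Q := by positivity
      have hB : 0 ≤ Real.exp (Real.log (n : ℝ) / 48) *
          (len w * Real.exp (-(FF c0 n w : ℝ) / (n : ℝ))) := by positivity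
      by_cases h : ((qq w).1 : ℝ) ≤ Q ∧ (n : ℝ) * Real.log (n : ℝ) / 48 ≤ (FF c0 n w : ℝ)
      · rw [if_pos h]; linarith
      · rw [if_neg h, zero_add]
        exact key w hw h
    rw [Finset.sum_add_distrib, Finset.sum_add_distrib, ← Finset.sum_div, ← Finset.mul_sum,
      ← Finset.sum_filter] at hall
    have h1 : (∑ w ∈ words (n ^ 2) n, len w * Real.sqrt ((qq w).1 : ℝ)) / Real.sqrt Q ≤
        6 ^ n / Real.sqrt Q := div_le_div_of_nonneg_right hS hQ0.le
    have h2 := mul_le_mul_of_nonneg_left hE (Real.exp_pos (Real.log (n : ℝ) / 48)).le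
    linarith
  · -- the number of fine words
    have hQ2 : (0 : ℝ) < 2 * Q ^ 2 := by positivity
    have hlow : ∀ w ∈ (words (n ^ 2) n).filter (fun w => ((qq w).1 : ℝ) ≤ Q ∧
        (n : ℝ) * Real.log (n : ℝ) / 48 ≤ (FF c0 n w : ℝ)), 1 / (2 * Q ^ 2) ≤ len w := by
      intro w hw
      obtain ⟨hw1, hw2, -⟩ := Finset.mem_filter.1 hw
      have hd := ((mem_words (n ^ 2) n w).1 hw1).2
      have hq1 := qq_pos w (fun c hc => (hd c hc).1)
      have hq2 := qq_le w (fun c hc => (hd c hc).1)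
      have h1 : (1 : ℝ) ≤ ((qq w).1 : ℝ) := by exact_mod_cast hq1
      have h2 : ((qq w).2 : ℝ) ≤ ((qq w).1 : ℝ) := by exact_mod_cast hq2
      have h3 : (0 : ℝ) ≤ ((qq w).2 : ℝ) := Nat.cast_nonneg _
      unfold len
      refine one_div_le_one_div_of_le (by positivity) ?_
      nlinarith
    have hsum : (((words (n ^ 2) n).filter (fun w => ((qq w).1 : ℝ) ≤ Q ∧
        (n : ℝ) * Real.log (n : ℝ) / 48 ≤ (FF c0 n w : ℝ))).card : ℝ) * (1 / (2 * Q ^ 2)) ≤ 1 := by
      refine le_trans ?_ hM2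
      have hsub : (words (n ^ 2) n).filter (fun w => ((qq w).1 : ℝ) ≤ Q ∧
        (n : ℝ) * Real.log (n : ℝ) / 48 ≤ (FF c0 n w : ℝ)) ⊆ words (n ^ 2) n :=
        Finset.filter_subset _ _
      refine le_trans ?_ (Finset.sum_le_sum_of_subset_of_nonneg hsub
        (fun w _ _ => finew_len_nonneg w))
      rw [← nsmul_eq_mul]
      exact Finset.card_nsmul_le_sum _ _ _ hlow
    rw [mul_one_div, div_le_one hQ2] at hsum
    exact hsum

end Pool.Agent.H484.AL
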